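import Pool.Agent.W2helper1.CTL.Visual

/-!
# The endpoint set of a Cannon-Thurston lamination can have positive Hausdorff dimension

Definitions: `Pool.Agent.H322R3.HypDefs` (word-hyperbolic groups, Gromov boundary),
`Pool.Agent.R639.CT.Defs` (`ConvTo`, `hausdorffDim`) and `Pool.Agent.W2helper1.CTL.Defs`
(convergence actions, Cannon-Thurston maps to compacta, visual metrics, endpoint set).

The example.  `H` is the free group on `a, b, c`.  Every edge `(g, gc)` of the Cayley tree with label
`c` cuts the tree into two halves; `s h : H → Bool` records on which sides of these walls `h ∈ H`
lies, and `Z` is the closure of `{s h : h ∈ H}` in the compact space of all functions `H → Bool`, on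
which `H` acts by translation.  (`Z` is the Bowditch boundary of `H` relative to the free factor
`P = ⟨a, b⟩`: it is `∂H` with the limit set of each coset `gP` collapsed to a point.)

* The action is a convergence action because three points of the tree which are pairwise separated
  by walls near `1` have their centre near `1`, and an element `h` which moves such a triple to
  such a triple is short (`len_le`, `proper`).
* No orbit is finite: a point fixed by a power of `c` is not fixed by a power of `a c a⁻¹`.
* `s` extends continuously to a map `f : ∂H → Z`, since `s x g` is determined by `g` and the initial
  segment of length `|g| + 1` of `x`.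
* All infinite positive words in `a` and `b` are mapped by `f` to the base point `z₀ = s 1`, because no
  wall separates them from `1`.  They form a set of dimension at least `log 2 / log a`.
-/

set_option autoImplicit false

namespace Pool.Agent.Results.MP_d1e581_al.FreeFactorCollapse

open Pool.Agent.H322R3.Hyp Pool.Agent.R639.CT Pool.Agent.W2helper1.CTL

/-- There are a word-hyperbolic group `H` with finite generating set `S` and infinite boundary
(so `H` is non-elementary), a metrizable compactum `Z` with a convergence action of `H` without
finite orbits, a point `z₀ ∈ Z` and a Cannon-Thurston map `f : ∂H → Z` with infinite image such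
that for every `a > 1` there is a visual metric with parameter `a` on `∂H`, and with respect to
every such metric the set of endpoints of the Cannon-Thurston lamination of `f` has positive
Hausdorff dimension. -/
theorem result : ∃ (H : Type) (_ : Group H) (S : Set H), S.Finite ∧ Subgroup.closure S = ⊤ ∧
    IsHyperbolic S ∧ Infinite (Boundary S) ∧
    ∃ (Z : Type) (_ : TopologicalSpace Z) (_ : MulAction H Z) (z₀ : Z) (f : Boundary S → Z),
      IsNonElemConvergence H Z ∧ IsCTMap S z₀ f ∧ (Set.range f).Infinite ∧
      ∀ a : ℝ, 1 < a → (∃ m : MetricSpace (Boundary S), IsVisualCayley S a m) ∧
        ∀ m : MetricSpace (Boundary S), IsVisualCayley S a m →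
          0 < hausdorffDim m (endpoints f) := by
  refine ⟨F3, inferInstance, basis 3, Set.finite_range _, clB, isHyperbolic_free,
    Infinite.of_injective px px_inj, Zc, inferInstance, inferInstance, z0, fmap, ?_, fmap_ct,
    range_infinite, fun a ha => ⟨⟨vm ha, vm_visual ha⟩, fun m hm => dim_pos ha m hm⟩⟩
  exact
    { compact := inferInstance
      metrizable := inferInstance
      continuous_smul := smul_continuous
      proper := proper
      orbit_infinite := orbit_infinite }

end Pool.Agent.Results.MP_d1e581_al.FreeFactorCollapse
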